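import Pool.Agent.Y476.RM.Stm2

/-!
# A finite measure on the circle whose Fourier coefficients tend to zero has no atoms
-/

set_option autoImplicit false
open MeasureTheory Filter Topology
open scoped ENNReal

namespace Pool.Agent.Y108.HM

open Pool.Agent.Y476.RM

theorem fourier_nat (n : ℕ) (y : TT) :
    (fourier (n : ℤ) y : ℂ) = ((AddCircle.toCircle y : Circle) : ℂ) ^ n := by
  rw [fourier_apply, AddCircle.toCircle_zsmul, zpow_natCast, Circle.coe_pow]

theorem fourier_sub (n : ℕ) (y x : TT) :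
    (fourier (n : ℤ) (y - x) : ℂ) = (fourier (n : ℤ) y : ℂ) * (fourier (n : ℤ) (-x) : ℂ) := by
  rw [fourier_apply, fourier_apply, fourier_apply, sub_eq_add_neg, smul_add,
    AddCircle.toCircle_add, Circle.coe_mul]

theorem cesaro_geom (z : ℂ) (hz : ‖z‖ = 1) (h1 : z ≠ 1) :
    Tendsto (fun N : ℕ => ((N : ℝ)⁻¹ : ℝ) • ∑ n ∈ Finset.range N, z ^ n) atTop (𝓝 0) := by
  rw [tendsto_zero_iff_norm_tendsto_zero]
  have hb : ∀ N : ℕ, ‖((N : ℝ)⁻¹ : ℝ) • ∑ n ∈ Finset.range N, z ^ n‖ ≤ (2 / ‖z - 1‖) * (N : ℝ)⁻¹ := by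
    intro N
    rw [norm_smul, geom_sum_eq h1, norm_div, Real.norm_of_nonneg (by positivity), mul_comm]
    gcongr
    calc ‖z ^ N - 1‖ ≤ ‖z ^ N‖ + ‖(1 : ℂ)‖ := norm_sub_le _ _
      _ = 2 := by rw [norm_pow, hz]; norm_num
  refine squeeze_zero (fun _ => norm_nonneg _) hb ?_
  have := (tendsto_inv_atTop_nhds_zero_nat (𝕜 := ℝ)).const_mul (2 / ‖z - 1‖)
  simpa using this

theorem t : S_WIEN := by
  intro σ _ hσ x
  set u : ℕ → TT → ℂ := fun N y =>
    ((N : ℝ)⁻¹ : ℝ) • ∑ n ∈ Finset.range N, (fourier (n : ℤ) (y - x) : ℂ) with hu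
  have hlim : ∀ y, Tendsto (fun N => u N y) atTop
      (𝓝 (Set.indicator {x} (fun _ => (1 : ℂ)) y)) := by
    intro y
    by_cases hy : y = x
    · subst hy
      rw [Set.indicator_of_mem (Set.mem_singleton y)]
      refine tendsto_const_nhds.congr' ?_
      filter_upwards [eventually_gt_atTop 0] with N hN
      simp only [hu, sub_self]
      have h1 : ∀ n : ℕ, (fourier (n : ℤ) (0 : TT) : ℂ) = 1 := by
        intro n
        rw [fourier_nat]
        simp
      simp only [h1, Finset.sum_const, Finset.card_range, nsmul_eq_mul, mul_one]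
      rw [Complex.real_smul]
      push_cast
      have : (N : ℂ) ≠ 0 := by exact_mod_cast hN.ne'
      field_simp
    · rw [Set.indicator_of_notMem (by simpa using hy)]
      have h1 : ((AddCircle.toCircle (y - x) : Circle) : ℂ) ≠ 1 := by
        intro h
        have h2 : AddCircle.toCircle (y - x) = AddCircle.toCircle (0 : TT) := by
          rw [AddCircle.toCircle_zero]
          exact Circle.ext (by simpa using h)
        have h3 := AddCircle.injective_toCircle (T := (1 : ℝ)) one_ne_zero h2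
        exact hy (sub_eq_zero.1 h3)
      have h2 := cesaro_geom _ (Circle.norm_coe _) h1
      simpa only [hu, fourier_nat] using h2
  have hbound : ∀ N y, ‖u N y‖ ≤ 1 := by
    intro N y
    simp only [hu]
    rw [norm_smul, Real.norm_of_nonneg (by positivity)]
    have h1 : ‖∑ n ∈ Finset.range N, (fourier (n : ℤ) (y - x) : ℂ)‖ ≤ N := by
      refine (norm_sum_le _ _).trans ?_
      have : ∀ n ∈ Finset.range N, ‖(fourier (n : ℤ) (y - x) : ℂ)‖ ≤ 1 := by
        intro n _
        rw [fourier_nat, norm_pow, Circle.norm_coe, one_pow]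
      refine (Finset.sum_le_sum this).trans ?_
      simp
    rcases Nat.eq_zero_or_pos N with h0 | h0
    · subst h0; simp
    · have h2 : (0 : ℝ) < N := by exact_mod_cast h0
      calc (N : ℝ)⁻¹ * ‖∑ n ∈ Finset.range N, (fourier (n : ℤ) (y - x) : ℂ)‖
          ≤ (N : ℝ)⁻¹ * N := by gcongr
        _ = 1 := by field_simp
  have hcont : ∀ n : ℕ, Continuous fun y : TT => (fourier (n : ℤ) (y - x) : ℂ) := fun n =>
    (map_continuous (fourier (n : ℤ))).comp (continuous_id.sub continuous_const)
  have hmeas : ∀ N, AEStronglyMeasurable (u N) σ := by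
    intro N
    refine Continuous.aestronglyMeasurable ?_
    have h1 : Continuous fun y : TT => ∑ n ∈ Finset.range N, (fourier (n : ℤ) (y - x) : ℂ) :=
      continuous_finsetSum _ fun n _ => hcont n
    exact h1.const_smul ((N : ℝ)⁻¹ : ℝ)
  have h1 : Tendsto (fun N => ∫ y, u N y ∂σ) atTop
      (𝓝 (∫ y, Set.indicator {x} (fun _ => (1 : ℂ)) y ∂σ)) :=
    tendsto_integral_of_dominated_convergence (fun _ => (1 : ℝ)) hmeas (integrable_const _)
      (fun N => Eventually.of_forall fun y => hbound N y)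
      (Eventually.of_forall fun y => hlim y)
  have hint : ∀ n : ℕ, Integrable (fun y : TT => (fourier (n : ℤ) (y - x) : ℂ)) σ := by
    intro n
    refine Integrable.mono' (integrable_const (1 : ℝ)) (hcont n).aestronglyMeasurable
      (Eventually.of_forall fun y => ?_)
    rw [fourier_nat, norm_pow, Circle.norm_coe, one_pow]
  have h2 : ∀ N, ∫ y, u N y ∂σ = ((N : ℝ)⁻¹ : ℝ) • ∑ n ∈ Finset.range N,
      ((∫ y, (fourier (n : ℤ) y : ℂ) ∂σ) * (fourier (n : ℤ) (-x) : ℂ)) := by
    intro N
    simp only [hu]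
    rw [integral_smul, integral_finsetSum _ fun n _ => hint n]
    congr 1
    refine Finset.sum_congr rfl fun n _ => ?_
    simp only [fourier_sub]
    rw [integral_mul_const]
  have h3 : Tendsto (fun n : ℕ => (∫ y, (fourier (n : ℤ) y : ℂ) ∂σ) *
      (fourier (n : ℤ) (-x) : ℂ)) atTop (𝓝 0) := by
    rw [tendsto_zero_iff_norm_tendsto_zero]
    refine (tendsto_zero_iff_norm_tendsto_zero.1 hσ).congr fun n => ?_
    rw [norm_mul, fourier_nat n (-x), norm_pow, Circle.norm_coe, one_pow, mul_one]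
  have h4 := h3.cesaro_smul
  have h5 : (∫ y, Set.indicator {x} (fun _ => (1 : ℂ)) y ∂σ) = 0 := by
    refine tendsto_nhds_unique h1 ?_
    simp only [h2]
    exact h4
  rw [integral_indicator (MeasurableSet.singleton x), setIntegral_const] at h5
  have h6 : σ.real {x} = 0 := by
    simpa using h5
  exact (measureReal_eq_zero_iff (measure_ne_top σ _)).1 h6

end Pool.Agent.Y108.HM
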